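import Pool.Agent.Helper29.AR.Props
import Pool.Agent.Helper10.RC.All
import Pool.Agent.Helper12.UG.VarR

/-!
# MP_b55b7c_an: approximate stable rank one passes to the fixed point algebra
-/

open scoped ENNReal NNReal InnerProductSpace ComplexOrder
open Filter Topology

attribute [-instance] CStarMatrix.instAlgebra CStarMatrix.instModule CStarMatrix.instSMul
  CStarMatrix.instMulAction CStarMatrix.instDistribMulAction

set_option linter.unusedSectionVars false
set_option linter.unusedVariables false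

noncomputable section
namespace RC
universe u

namespace H2AR
open H12VR H19Cross

section
variable {A : Type u} [CStarAlgebra A] [PartialOrder A] [StarOrderedRing A]
  {B : Type u} [CStarAlgebra B] [PartialOrder B] [StarOrderedRing B]
  {G : Type} [Group G] [Fintype G] [DecidableEq G]
  {R : Type u} [CStarAlgebra R] [PartialOrder R] [StarOrderedRing R]
  {α : G → A ≃⋆ₐ[ℂ] A} {k : A →⋆ₐ[ℂ] R} {w : G → R} {j : B →⋆ₐ[ℂ] A}

/-- The average of the implementing unitaries. -/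
def pr (w : G → R) : R := (Fintype.card G : ℂ)⁻¹ • ∑ g, w g

theorem w_pr (hc : IsCross α k w) (g : G) : w g * pr w = pr w := by
  rw [pr, mul_smul_comm, Finset.mul_sum]
  congr 1
  rw [← Equiv.sum_comp (Equiv.mulLeft g) w]
  refine Finset.sum_congr rfl fun t _ => ?_
  rw [Equiv.coe_mulLeft, hc.2.1]

theorem pr_star (hc : IsCross α k w) : star (pr w) = pr w := by
  rw [pr, star_smul, star_sum]
  have h1 : star ((Fintype.card G : ℂ)⁻¹) = (Fintype.card G : ℂ)⁻¹ := by
    rw [star_inv₀, star_natCast]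
  rw [h1, ← Equiv.sum_comp (Equiv.inv G) w]
  congr 1
  refine Finset.sum_congr rfl fun t _ => ?_
  rw [Equiv.inv_apply, u_star hc]

theorem pr_w (hc : IsCross α k w) (g : G) : pr w * w g = pr w := by
  have h1 := congrArg star (w_pr hc g⁻¹)
  rwa [star_mul, pr_star hc, u_star hc, inv_inv] at h1

theorem pr_mul_eq (w : G → R) (x : R) :
    pr w * x = (Fintype.card G : ℂ)⁻¹ • ∑ g, w g * x := by
  rw [pr, smul_mul_assoc, Finset.sum_mul]

theorem pr_mul (hc : IsCross α k w) : pr w * pr w = pr w := by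
  rw [pr_mul_eq]
  simp only [w_pr hc]
  exact mean_const _

theorem pr_comm (hj : IsFix α j) (hc : IsCross α k w) (b : B) :
    pr w * k (j b) = k (j b) * pr w := by
  have h1 : ∀ g, α g (j b) = j b := (hj.2 (j b)).2 ⟨b, rfl⟩
  rw [pr, smul_mul_assoc, mul_smul_comm, Finset.sum_mul, Finset.mul_sum]
  congr 1
  refine Finset.sum_congr rfl fun t _ => ?_
  rw [u_k hc, h1]

/-- `b ↦ k (j b) p`. -/
def Psi (hj : IsFix α j) (hc : IsCross α k w) : B →⋆ₙₐ[ℂ] R where
  toFun b := k (j b) * pr w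
  map_smul' c b := by
    simp only [map_smul, smul_mul_assoc, MonoidHom.id_apply]
  map_zero' := by simp
  map_add' a b := by rw [map_add, map_add, add_mul]
  map_mul' a b := by
    rw [map_mul, map_mul, mul_assoc (k (j a)) (pr w), ← mul_assoc (pr w), pr_comm hj hc,
      mul_assoc (k (j b)), pr_mul hc, mul_assoc]
  map_star' b := by
    rw [star_mul, pr_star hc, map_star, map_star, ← map_star, ← map_star, pr_comm hj hc]

theorem Psi_apply (hj : IsFix α j) (hc : IsCross α k w) (b : B) :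
    Psi hj hc b = k (j b) * pr w := rfl

theorem ce_Psi (hj : IsFix α j) (hc : IsCross α k w) (b : B) :
    ce hc (Psi hj hc b) = (Fintype.card G : ℂ)⁻¹ • j b := by
  rw [ce_apply, cf_unique hc (f := fun _ => (Fintype.card G : ℂ)⁻¹ • j b)]
  rw [Psi_apply, pr, mul_smul_comm, Finset.mul_sum, Finset.smul_sum]
  refine Finset.sum_congr rfl fun g _ => ?_
  rw [map_smul, smul_mul_assoc]

theorem ce_norm (ha : IsAct α) (hc : IsCross α k w) (r : R) : ‖ce hc r‖ ≤ ‖r‖ := by
  have h1 := ce_sq ha hc r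
  have h2 : ce hc (star r * r) ≤ (‖r‖ ^ 2) • (1 : A) := by
    have h3 : star r * r ≤ (‖r‖ ^ 2) • (1 : R) := by
      have := CStarAlgebra.star_mul_le_algebraMap_norm_sq (a := r)
      rwa [Algebra.algebraMap_eq_smul_one] at this
    have h4 := ce_mono ha hc h3
    have h5 : ce hc ((‖r‖ ^ 2) • (1 : R)) = (‖r‖ ^ 2) • (1 : A) := by
      rw [← Complex.coe_smul, map_smul, ce_one, Complex.coe_smul]
    rwa [h5] at h4
  have h6 := h1.trans h2
  have h7 := CStarAlgebra.norm_le_norm_of_nonneg_of_le (star_mul_self_nonneg (ce hc r)) h6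
  rw [CStarRing.norm_star_mul_self, norm_smul] at h7
  have h8 : ‖(1 : A)‖ ≤ 1 := (CStarAlgebra.norm_le_one_iff_of_nonneg (1 : A) zero_le_one).2 le_rfl
  rw [Real.norm_eq_abs, abs_of_nonneg (by positivity)] at h7
  have h9 : ‖r‖ ^ 2 * ‖(1 : A)‖ ≤ ‖r‖ ^ 2 := by nlinarith [sq_nonneg ‖r‖]
  nlinarith [norm_nonneg (ce hc r), norm_nonneg r]

theorem norm_le_Psi (ha : IsAct α) (hj : IsFix α j) (hc : IsCross α k w) (b : B) :
    ‖b‖ ≤ Fintype.card G * ‖Psi hj hc b‖ := by
  have h1 := ce_norm ha hc (Psi hj hc b)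
  rw [ce_Psi, norm_smul, norm_inv, Complex.norm_natCast,
    NonUnitalStarAlgHom.norm_map (j : B →⋆ₐ[ℂ] A) hj.1 b] at h1
  have hn : (0 : ℝ) < Fintype.card G := by exact_mod_cast Fintype.card_pos
  rwa [inv_mul_le_iff₀ hn] at h1

theorem nonneg_of_Psi (ha : IsAct α) (hj : IsFix α j) (hc : IsCross α k w) {b : B}
    (h : 0 ≤ Psi hj hc b) : 0 ≤ b := by
  have h1 := ce_nonneg ha hc h
  rw [ce_Psi] at h1
  have hn : (0 : ℝ) < Fintype.card G := by exact_mod_cast Fintype.card_pos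
  have h2 : 0 ≤ j b := by
    have h3 : j b = (Fintype.card G : ℝ) • ((Fintype.card G : ℂ)⁻¹ • j b) := by
      rw [inv_card, Complex.coe_smul, smul_smul, mul_inv_cancel₀ hn.ne', one_smul]
    rw [h3]
    exact smul_nonneg hn.le h1
  have hsa : IsSelfAdjoint b := by
    have h3 : star (j b) = j b := h2.isSelfAdjoint
    apply hj.1
    rw [map_star, h3]
  have h4 : j (cut b 0) = j b := by
    unfold cut
    rw [starHom_cfc j _ (by fun_prop) b hsa]
    exact cut_zero h2
  have h5 : cut b 0 = b := hj.1 h4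
  rw [← h5]
  exact cut_nonneg b 0

/-- The corner is the image of `B`. -/
theorem corner (ha : IsAct α) (hj : IsFix α j) (hc : IsCross α k w) (r : R) :
    ∃ b : B, Psi hj hc b = pr w * r * pr w := by
  obtain ⟨b, hb⟩ := (hj.2 (av α (∑ g, cf hc r g))).1 fun g => av_inv ha g _
  refine ⟨b, ?_⟩
  rw [Psi_apply, hb]
  conv_rhs => rw [cf_spec hc r]
  have h1 : pr w * (∑ g, k (cf hc r g) * w g) * pr w = pr w * k (∑ g, cf hc r g) * pr w := by
    rw [Finset.mul_sum, Finset.sum_mul, map_sum, Finset.mul_sum, Finset.sum_mul]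
    refine Finset.sum_congr rfl fun g _ => ?_
    rw [mul_assoc, mul_assoc, w_pr hc, mul_assoc]
  rw [h1, av, map_smul, map_sum, smul_mul_assoc, Finset.sum_mul, mul_assoc, pr_mul_eq]
  congr 1
  refine Finset.sum_congr rfl fun g _ => ?_
  rw [← mul_assoc, u_k hc, mul_assoc, w_pr hc]

end

theorem norm_proj_le {R : Type u} [CStarAlgebra R] {p : R} (hs : star p = p) (hp : p * p = p) :
    ‖p‖ ≤ 1 := by
  have h1 : ‖star p * p‖ = ‖p‖ * ‖p‖ := CStarRing.norm_star_mul_self
  rw [hs, hp] at h1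
  by_contra h
  push Not at h
  nlinarith

theorem alg {R : Type u} [CStarAlgebra R] [PartialOrder R] [StarOrderedRing R] {p : R}
    (hs : star p = p) (hp : p * p = p)
    {X Z : R} {η : ℝ} (hX : p * X = X * p) (hX1 : (1 - p) * X = 1 - p)
    (hη : η ≤ 1 / 2) (hXZ : ‖X - Z‖ ≤ η) :
    ∃ Gm : R, p * Gm = p ∧ Gm * p = Gm ∧ p * (Z * Gm) = Z * Gm ∧
      ‖X * p - Z * Gm‖ ≤ 2 * η := by
  have hη0 : 0 ≤ η := (norm_nonneg _).trans hXZ
  set q := 1 - p with hq
  have hqs : star q = q := by rw [hq, star_sub, star_one, hs]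
  have hqq : q * q = q := by
    rw [hq, sub_mul, one_mul, mul_sub, mul_one, hp, sub_self, sub_zero]
  have hpq : p * q = 0 := by rw [hq, mul_sub, hp, mul_one, sub_self]
  have hqp : q * p = 0 := by rw [hq, sub_mul, hp, one_mul, sub_self]
  have hpn := norm_proj_le hs hp
  have hqn := norm_proj_le hqs hqq
  have hXq : X * q = q := by
    have : X * q = q * X := by rw [hq, mul_sub, sub_mul, hX, mul_one, one_mul]
    rw [this, hX1]
  -- the unit
  set u := q * (X - Z) * q with hu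
  have hun : ‖u‖ ≤ η := by
    calc ‖u‖ ≤ ‖q * (X - Z)‖ * ‖q‖ := norm_mul_le _ _
      _ ≤ (‖q‖ * ‖X - Z‖) * ‖q‖ := by gcongr; exact norm_mul_le _ _
      _ ≤ (1 * η) * 1 := by gcongr
      _ = η := by ring
  have hun1 : ‖u‖ < 1 := by linarith
  obtain ⟨U, hU⟩ : IsUnit (1 - u) := isUnit_one_sub_of_norm_lt_one hun1
  set V : R := ↑(U⁻¹) with hV
  have hUV : (1 - u) * V = 1 := by rw [← hU]; exact U.mul_inv
  have hVU : V * (1 - u) = 1 := by rw [← hU]; exact U.inv_mul
  have hpu : p * u = 0 := by rw [hu, ← mul_assoc, ← mul_assoc, hpq, zero_mul, zero_mul]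
  have hup : u * p = 0 := by rw [hu, mul_assoc, hqp, mul_zero]
  have hpV : p * V = p := by
    have h1 : p * ((1 - u) * V) = p * V := by
      rw [← mul_assoc, mul_sub, hpu, mul_one, sub_zero]
    rw [hUV, mul_one] at h1
    exact h1.symm
  have hVp : V * p = p := by
    have h1 : (V * (1 - u)) * p = V * p := by
      rw [mul_assoc, sub_mul, hup, one_mul, sub_zero]
    rw [hVU, one_mul] at h1
    exact h1.symm
  have hVn : ‖V‖ ≤ 2 := by
    have h1 : V = 1 + u * V := by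
      have : V = (1 - u) * V + u * V := by noncomm_ring
      rw [hUV] at this
      exact this
    have h2 : ‖V‖ ≤ ‖(1 : R)‖ + ‖u‖ * ‖V‖ := by
      calc ‖V‖ = ‖1 + u * V‖ := by rw [← h1]
        _ ≤ ‖(1 : R)‖ + ‖u * V‖ := norm_add_le _ _
        _ ≤ _ := by gcongr; exact norm_mul_le _ _
    have h3 : ‖(1 : R)‖ ≤ 1 :=
      (CStarAlgebra.norm_le_one_iff_of_nonneg (1 : R) zero_le_one).2 le_rfl
    have h4 : ‖u‖ * ‖V‖ ≤ 1 / 2 * ‖V‖ := by gcongr; linarith
    linarith
  have hqV : q * V = V * q := by rw [hq, sub_mul, mul_sub, hpV, hVp, one_mul, mul_one]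
  -- `q Z q = q (1 - u)`
  have hqZq : q * Z * q = q * (1 - u) := by
    rw [hu]
    have h1 : q * (1 - q * (X - Z) * q) = q - (q * q) * X * q + (q * q) * Z * q := by noncomm_ring
    rw [h1, hqq, mul_assoc q X q, hXq, hqq, sub_self, zero_add]
  have hqZqV : q * Z * q * V = q := by rw [hqZq, mul_assoc, hUV, mul_one]
  refine ⟨(1 - V * q * Z) * p, ?_, ?_, ?_, ?_⟩
  · have h1 : p * ((1 - V * q * Z) * p) = p * p - (p * V) * q * Z * p := by noncomm_ring
    rw [h1, hpV, hpq, hp, zero_mul, zero_mul, sub_zero]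
  · rw [mul_assoc, hp]
  · have h1 : q * (Z * ((1 - V * q * Z) * p)) = q * Z * p - q * Z * (V * q) * Z * p := by
      noncomm_ring
    have h2 : q * Z * (V * q) = q := by rw [← hqV, ← mul_assoc, hqZqV]
    have h3 : q * (Z * ((1 - V * q * Z) * p)) = 0 := by rw [h1, h2, sub_self]
    have h4' : ∀ y : R, p * y = y - q * y := fun y => by rw [hq, sub_mul, one_mul, sub_sub_cancel]
    have h4 := h4' (Z * ((1 - V * q * Z) * p))
    rw [h4, h3, sub_zero]
  · have h1 : q * (Z * ((1 - V * q * Z) * p)) = q * Z * p - q * Z * (V * q) * Z * p := by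
      noncomm_ring
    have h2 : q * Z * (V * q) = q := by rw [← hqV, ← mul_assoc, hqZqV]
    have h3 : q * (Z * ((1 - V * q * Z) * p)) = 0 := by rw [h1, h2, sub_self]
    have h4' : ∀ y : R, p * y = y - q * y := fun y => by rw [hq, sub_mul, one_mul, sub_sub_cancel]
    have h4 := h4' (Z * ((1 - V * q * Z) * p))
    rw [h3, sub_zero] at h4
    rw [← h4]
    have h5 : X * p = p * X * p := by rw [hX, mul_assoc, hp]
    -- p Z V q Z p = (p (Z - X) q) V (q (Z - X) p)
    have h6 : V * q = q * V * q := by rw [hqV, mul_assoc, hqq]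
    have h7 : p * (Z - X) * q = p * Z * q := by
      have : p * (Z - X) * q = p * Z * q - p * (X * q) := by noncomm_ring
      rw [this, hXq, hpq, sub_zero]
    have h8 : q * (Z - X) * p = q * Z * p := by
      have : q * (Z - X) * p = q * Z * p - (q * X) * p := by noncomm_ring
      rw [this, hX1, hqp, sub_zero]
    have h9 : X * p - p * (Z * ((1 - V * q * Z) * p)) =
        p * (X - Z) * p + (p * (Z - X) * q) * V * (q * (Z - X) * p) := by
      rw [h7, h8, h5]
      have : p * Z * q * V * (q * Z * p) = p * Z * (q * V * q) * Z * p := by noncomm_ring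
      rw [this, ← h6]
      noncomm_ring
    rw [h9]
    have e1 : ‖p * (X - Z) * p‖ ≤ η := by
      calc _ ≤ ‖p * (X - Z)‖ * ‖p‖ := norm_mul_le _ _
        _ ≤ (‖p‖ * ‖X - Z‖) * ‖p‖ := by gcongr; exact norm_mul_le _ _
        _ ≤ (1 * η) * 1 := by gcongr
        _ = η := by ring
    have hZX : ‖Z - X‖ ≤ η := by rwa [norm_sub_rev]
    have e2 : ‖p * (Z - X) * q‖ ≤ η := by
      calc _ ≤ ‖p * (Z - X)‖ * ‖q‖ := norm_mul_le _ _
        _ ≤ (‖p‖ * ‖Z - X‖) * ‖q‖ := by gcongr; exact norm_mul_le _ _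
        _ ≤ (1 * η) * 1 := by gcongr
        _ = η := by ring
    have e3 : ‖q * (Z - X) * p‖ ≤ η := by
      calc _ ≤ ‖q * (Z - X)‖ * ‖p‖ := norm_mul_le _ _
        _ ≤ (‖q‖ * ‖Z - X‖) * ‖p‖ := by gcongr; exact norm_mul_le _ _
        _ ≤ (1 * η) * 1 := by gcongr
        _ = η := by ring
    have e4 : ‖p * (Z - X) * q * V * (q * (Z - X) * p)‖ ≤ η := by
      calc _ ≤ ‖p * (Z - X) * q * V‖ * ‖q * (Z - X) * p‖ := norm_mul_le _ _
        _ ≤ (‖p * (Z - X) * q‖ * ‖V‖) * ‖q * (Z - X) * p‖ := by gcongr; exact norm_mul_le _ _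
        _ ≤ (η * 2) * η := by gcongr
        _ ≤ η := by nlinarith
    calc _ ≤ _ := norm_add_le _ _
      _ ≤ η + η := add_le_add e1 e4
      _ = _ := by ring

/-- `c₁ S + c₂ T` is bounded by `S` and `T`. -/
theorem ped {R : Type u} [CStarAlgebra R] [PartialOrder R] [StarOrderedRing R]
    (c₁ c₂ S T : R) : ∃ K : ℝ, 0 < K ∧
    star (c₁ * S + c₂ * T) * (c₁ * S + c₂ * T) ≤ K • (star S * S + star T * T) := by
  have h0 : ∀ c x : R, star (c * x) * (c * x) ≤ (‖c‖ ^ 2) • (star x * x) := by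
    intro c x
    have h1 := CStarAlgebra.star_mul_le_algebraMap_norm_sq (a := c)
    have h2 := star_left_conjugate_le_conjugate h1 x
    rw [Algebra.algebraMap_eq_smul_one, mul_smul_comm, smul_mul_assoc, mul_one] at h2
    have h3 : star (c * x) * (c * x) = star x * (star c * c) * x := by
      rw [star_mul]; noncomm_ring
    rw [h3]
    exact h2
  have h1 : star (c₁ * S + c₂ * T) * (c₁ * S + c₂ * T) ≤
      (2 : ℝ) • (star (c₁ * S) * (c₁ * S) + star (c₂ * T) * (c₂ * T)) := by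
    have h2 := star_mul_self_nonneg (c₁ * S - c₂ * T)
    rw [← sub_nonneg]
    have h3 : (2 : ℝ) • (star (c₁ * S) * (c₁ * S) + star (c₂ * T) * (c₂ * T)) -
      star (c₁ * S + c₂ * T) * (c₁ * S + c₂ * T) =
      star (c₁ * S - c₂ * T) * (c₁ * S - c₂ * T) := by
      rw [two_smul, star_add, star_sub]
      noncomm_ring
    rw [h3]
    exact h2
  refine ⟨2 * (‖c₁‖ ^ 2 + ‖c₂‖ ^ 2 + 1), by positivity, h1.trans ?_⟩
  rw [mul_smul]
  refine smul_le_smul_of_nonneg_left ?_ (by norm_num)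
  rw [smul_add]
  refine add_le_add ((h0 _ _).trans ?_) ((h0 _ _).trans ?_)
  · exact smul_le_smul_of_nonneg_right (by nlinarith [sq_nonneg ‖c₂‖]) (star_mul_self_nonneg _)
  · exact smul_le_smul_of_nonneg_right (by nlinarith [sq_nonneg ‖c₁‖]) (star_mul_self_nonneg _)

/-- A positive element bounded below is invertible. -/
theorem isUnit_of_le {B : Type u} [CStarAlgebra B] [PartialOrder B] [StarOrderedRing B]
    {y : B} {K : ℝ} (hK : 0 < K) (h : 1 ≤ K • y) : IsUnit y := by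
  have h1 : IsUnit (K • y) := CStarAlgebra.isUnit_of_le (1 : B) h (by simp)
  have h2 : y = algebraMap ℝ B K⁻¹ * (K • y) := by
    rw [Algebra.algebraMap_eq_smul_one, smul_mul_assoc, one_mul, smul_smul,
      inv_mul_cancel₀ hK.ne', one_smul]
  rw [h2]
  exact ((IsUnit.mk0 (K⁻¹) (by positivity)).map (algebraMap ℝ B)).mul h1


section
variable {A : Type u} [CStarAlgebra A] [PartialOrder A] [StarOrderedRing A]
  {B : Type u} [CStarAlgebra B] [PartialOrder B] [StarOrderedRing B]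
  {G : Type} [Group G] [Fintype G] [DecidableEq G]
  {R : Type u} [CStarAlgebra R] [PartialOrder R] [StarOrderedRing R]
  {α : G → A ≃⋆ₐ[ℂ] A} {k : A →⋆ₐ[ℂ] R} {w : G → R} {j : B →⋆ₐ[ℂ] A}

/-- The algebraic part. -/
theorem step (ha : IsAct α) (hj : IsFix α j) (hc : IsCross α k w) (x : B) {Z L : R} {η : ℝ}
    (hη : η ≤ 1 / 2) (hXZ : ‖Psi hj hc x + (1 - pr w) - Z‖ ≤ η) (hLI : LI Z L) :
    ∃ (x' l : B) (Gm : R), ‖x - x'‖ ≤ Fintype.card G * (2 * η) ∧ 0 ≤ l ∧ LI x' l ∧
      Psi hj hc l = sq (L * Gm) := by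
  obtain ⟨a, b, hab⟩ := hLI
  set p := pr w with hpdef
  have hs : star p = p := pr_star hc
  have hp : p * p = p := pr_mul hc
  have hpΨ : ∀ y : B, p * Psi hj hc y = Psi hj hc y := fun y => by
    rw [Psi_apply, ← mul_assoc, pr_comm hj hc, mul_assoc, pr_mul hc]
  have hΨp : ∀ y : B, Psi hj hc y * p = Psi hj hc y := fun y => by
    rw [Psi_apply, mul_assoc, pr_mul hc]
  have hX : p * (Psi hj hc x + (1 - p)) = (Psi hj hc x + (1 - p)) * p := by
    rw [mul_add, add_mul, hpΨ, hΨp, mul_sub, sub_mul, mul_one, one_mul]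
  have hX1 : (1 - p) * (Psi hj hc x + (1 - p)) = 1 - p := by
    rw [mul_add, sub_mul, one_mul, hpΨ, sub_self, zero_add, sub_mul, one_mul, mul_sub, mul_one,
      hp, sub_self, sub_zero]
  have hXp : (Psi hj hc x + (1 - p)) * p = Psi hj hc x := by
    rw [add_mul, hΨp, sub_mul, one_mul, hp, sub_self, add_zero]
  obtain ⟨Gm, h1, h2, h3, h4⟩ := alg hs hp hX hX1 hη hXZ
  rw [hXp] at h4
  set S := Z * Gm with hS
  have hSp : S * p = S := by rw [hS, mul_assoc, h2]
  obtain ⟨x', hx'⟩ := corner ha hj hc S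
  rw [← hpdef, mul_assoc, hSp, h3] at hx'
  obtain ⟨l, hl⟩ := corner ha hj hc (sq (L * Gm))
  have hTp : L * Gm * p = L * Gm := by rw [mul_assoc, h2]
  have hpT : p * star (L * Gm) = star (L * Gm) := by
    have := congrArg star hTp
    rwa [star_mul, hs] at this
  have hl' : Psi hj hc l = sq (L * Gm) := by
    rw [hl, ← hpdef, ← mul_assoc, hpT, mul_assoc, hTp]
  have hl0 : 0 ≤ l := nonneg_of_Psi ha hj hc (by rw [hl']; exact star_mul_self_nonneg _)
  refine ⟨x', l, Gm, ?_, hl0, ?_, hl'⟩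
  · have h5 := norm_le_Psi ha hj hc (x - x')
    rw [map_sub, hx'] at h5
    exact h5.trans (by gcongr)
  · -- invertibility
    have h5 : (p * a) * S + (p * b) * (L * Gm) = p := by
      have : (p * a) * S + (p * b) * (L * Gm) = p * (a * Z + b * L) * Gm := by
        rw [hS]; noncomm_ring
      rw [this, hab, mul_one, h1]
    obtain ⟨K, hK, h6⟩ := ped (p * a) (p * b) S (L * Gm)
    rw [h5, hs, hp] at h6
    have h7 : Psi hj hc (K • (sq x' + l) - 1) = K • (star S * S + star (L * Gm) * (L * Gm)) - p := by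
      have e1 : Psi hj hc (K • (sq x' + l)) = K • (star S * S + star (L * Gm) * (L * Gm)) := by
        rw [← Complex.coe_smul, map_smul, Complex.coe_smul, map_add, map_mul, map_star, hx', hl']
      rw [map_sub, e1, Psi_apply, map_one, map_one, one_mul]
    have h8 : 0 ≤ K • (sq x' + l) - 1 :=
      nonneg_of_Psi ha hj hc (by rw [h7]; exact sub_nonneg.2 h6)
    obtain ⟨y, hy⟩ := isUnit_of_le hK (sub_nonneg.1 h8)
    refine ⟨(↑(y⁻¹) : B) * star x', ↑(y⁻¹), ?_⟩
    have h9 : (↑(y⁻¹) : B) * star x' * x' + ↑(y⁻¹) * l = ↑(y⁻¹) * (sq x' + l) := by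
      rw [mul_add, mul_assoc]
    rw [h9, ← hy]
    exact y.inv_mul

/-- The functional calculus in the corner. -/
theorem Psi_cfc (hj : IsFix α j) (hc : IsCross α k w) (f : ℝ → ℝ) (hf : Continuous f)
    (hf0 : f 0 = 0) {b : B} (hb : 0 ≤ b) :
    Psi hj hc (cfc f b) = cfc f (Psi hj hc b) := by
  rw [← cfcₙ_eq_cfc (a := b) (f := f) (by exact hf.continuousOn) hf0,
    ← cfcₙ_eq_cfc (a := Psi hj hc b) (f := f) (by exact hf.continuousOn) hf0]
  have hcont : Continuous (Psi hj hc) := by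
    have := NonUnitalStarAlgHom.instContinuousLinearMapClassComplex (F := B →⋆ₙₐ[ℂ] R)
    exact map_continuous (Psi hj hc)
  refine NonUnitalStarAlgHomClass.map_cfcₙ (S := ℂ) (Psi hj hc) f b hf.continuousOn hf0 hcont
    hb.isSelfAdjoint ?_
  exact hb.isSelfAdjoint.map (Psi hj hc)

theorem isQ_dim {M : Type u} [CStarAlgebra M] [PartialOrder M] [StarOrderedRing M]
    {φ : TState M} {σ : QTrace M} (hσ : IsQ φ σ) {x : M} (hx : 0 ≤ x) (n : ℕ) :
    (φ.φ (cfc (fun t : ℝ => min 1 ((n : ℝ) * t)) x)).re ≤ σ.dim (one1 x) := by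
  have h1 : (φ.φ (cfc (fun t : ℝ => min 1 ((n : ℝ) * t)) x)).re =
      σ.τ Unit (cfc (fun t : ℝ => min 1 ((n : ℝ) * t)) (one1 x)) := by
    rw [← one1_cfc _ (by fun_prop) x hx.isSelfAdjoint, hσ Unit]
    simp [one1]
  rw [h1]
  exact le_ciSup (qBasicP M σ Unit (one1 x) (one1_nonneg hx)).1 n

theorem isQ_dim_le {M : Type u} [CStarAlgebra M] [PartialOrder M] [StarOrderedRing M]
    {φ : TState M} {σ : QTrace M} (hσ : IsQ φ σ) {x : M} (hx : 0 ≤ x) {c : ℝ}
    (h : ∀ n : ℕ, (φ.φ (cfc (fun t : ℝ => min 1 ((n : ℝ) * t)) x)).re ≤ c) :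
    σ.dim (one1 x) ≤ c := by
  refine ciSup_le fun n => ?_
  have h1 : (φ.φ (cfc (fun t : ℝ => min 1 ((n : ℝ) * t)) x)).re =
      σ.τ Unit (cfc (fun t : ℝ => min 1 ((n : ℝ) * t)) (one1 x)) := by
    rw [← one1_cfc _ (by fun_prop) x hx.isSelfAdjoint, hσ Unit]
    simp [one1]
  rw [← h1]
  exact h n

end

end H2AR

open H2AR H12VR H19Cross in
theorem asrBP (hDim : DimP.{u}) : AsrBP.{u} := by
  classical
  intro A _ _ _ B _ _ _ R _ _ _ G _ _ α j k w ha hj hc hs C hC hD hR x η θ hη hθ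
  obtain ⟨m, hm⟩ := sB_all A B G α j ha hj hs
  have hn : (0 : ℝ) < Fintype.card G := by exact_mod_cast Fintype.card_pos
  set N : ℝ := (Fintype.card G : ℝ) with hN
  set D : ℝ := m * C * N ^ 2 with hDdef
  have hD0 : 0 ≤ D := by positivity
  obtain ⟨Z, L, h1, h2, h3, h4⟩ := hR (Psi hj hc x + (1 - pr w)) (min (1 / 2) (η / (2 * N)))
    (θ / (D + 1)) (by positivity) (by positivity)
  obtain ⟨x', l, Gm, h5, h6, h7, h8⟩ := step ha hj hc x (min_le_left _ _) h1 h3
  refine ⟨x', l, h5.trans ?_, h6, h7, ?_⟩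
  · calc N * (2 * min (1 / 2) (η / (2 * N))) ≤ N * (2 * (η / (2 * N))) := by
          gcongr; exact min_le_right _ _
      _ = η := by field_simp
  intro ψ σB hσB
  obtain ⟨σ, hσ⟩ := hm σB
  obtain ⟨φ₀, σ₀, hQ₀, hσ₀⟩ := hD σ
  have hjl : 0 ≤ j l := map_nonneg j h6
  -- the invariant trace
  obtain ⟨σ₁, hσ₁⟩ := qOfTP A (avg φ₀ α)
  have hinv : Inv α (avg φ₀ α) := fun g a => avg_inv φ₀ α ha g a
  obtain ⟨σω, hσω⟩ := qOfTP R (tE ha hc (avg φ₀ α) hinv)
  have e1 : σB.dim (one1 l) ≤ m * σ.dim (one1 (j l)) := (hσ Unit (one1 l) (one1_nonneg h6)).2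
  have e2 : σ.dim (one1 (j l)) ≤ C * σ₀.dim (one1 (j l)) := by
    have := hσ₀ Unit (one1 (j l)) (one1_nonneg hjl)
    simpa using this
  have e3 : σ₀.dim (one1 (j l)) ≤ N * σ₁.dim (one1 (j l)) := by
    refine isQ_dim_le hQ₀ hjl fun n => ?_
    have h0 : 0 ≤ cfc (fun t : ℝ => min 1 ((n : ℝ) * t)) (j l) := cfc_nonneg fun t ht =>
      le_min zero_le_one (mul_nonneg (by positivity) (spectrum_nonneg_of_nonneg hjl ht))
    refine (le_avg φ₀ α ha _ h0).trans ?_
    exact mul_le_mul_of_nonneg_left (isQ_dim hσ₁ hjl n) hn.le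
  have hΨl : 0 ≤ Psi hj hc l := by rw [h8]; exact star_mul_self_nonneg _
  have e4 : σ₁.dim (one1 (j l)) ≤ N * σω.dim (one1 (Psi hj hc l)) := by
    refine isQ_dim_le hσ₁ hjl fun n => ?_
    have h9 := isQ_dim hσω hΨl n
    rw [← Psi_cfc hj hc (fun t : ℝ => min 1 ((n : ℝ) * t)) (by fun_prop) (by simp) h6, tE_apply,
      ce_Psi, starHom_cfc j _ (by fun_prop) l h6.isSelfAdjoint, map_smul, smul_eq_mul,
      inv_card, Complex.re_ofReal_mul, ← hN, inv_mul_le_iff₀ hn] at h9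
    exact h9
  have e5 : σω.dim (one1 (Psi hj hc l)) ≤ θ / (D + 1) := by
    rw [h8]
    have h9 := (hDim R σω).2.2.1 L 1 Gm h2
    rw [one_mul] at h9
    exact h9.trans (h4 _ σω hσω)
  calc σB.dim (one1 l) ≤ m * (C * (N * (N * (θ / (D + 1))))) := by
        refine e1.trans (mul_le_mul_of_nonneg_left (e2.trans ?_) (by positivity))
        refine mul_le_mul_of_nonneg_left (e3.trans ?_) hC
        refine mul_le_mul_of_nonneg_left (e4.trans ?_) hn.le
        exact mul_le_mul_of_nonneg_left e5 hn.le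
    _ = D / (D + 1) * θ := by rw [hDdef]; ring
    _ ≤ 1 * θ := by
        refine mul_le_mul_of_nonneg_right ?_ hθ.le
        rw [div_le_one (by positivity)]
        linarith
    _ = θ := one_mul _

end RC
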